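import Pool.Agent.H34.FS.Targets

/-!
# SEL: the second moment
-/

set_option autoImplicit false

open Finset Pool.Agent.H32.RQ Pool.Agent.H34.FQ

namespace Pool.Agent.H7.HFS

open Pool.Agent.H34.FS

section

variable {s : ℕ}

private theorem gm_dvd (x y : Fin s → ℤ) (i j : Fin s) : gm x y ∣ (mnr x y i j).natAbs :=
  Finset.gcd_dvd (f := fun p : Fin s × Fin s => (mnr x y p.1 p.2).natAbs) (mem_univ (i, j))

private theorem le_dm (x y : Fin s → ℤ) (i j : Fin s) : (mnr x y i j).natAbs ≤ dm x y :=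
  Finset.le_sup (f := fun p : Fin s × Fin s => (mnr x y p.1 p.2).natAbs) (mem_univ (i, j))

private theorem exists_minor {x y : Fin s → ℤ} (h : dm x y ≠ 0) :
    ∃ i j, (mnr x y i j).natAbs ≠ 0 := by
  by_contra hcon
  push Not at hcon
  apply h
  unfold dm
  refine Nat.le_zero.1 (Finset.sup_le fun p _ => ?_)
  exact (hcon p.1 p.2).le

private theorem gm_pos {x y : Fin s → ℤ} (h : dm x y ≠ 0) : 1 ≤ gm x y := by
  obtain ⟨i, j, hij⟩ := exists_minor h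
  refine Nat.one_le_iff_ne_zero.2 fun h0 => ?_
  have h1 := gm_dvd x y i j
  rw [h0, zero_dvd_iff] at h1
  exact hij h1

private theorem gm_le_dm {x y : Fin s → ℤ} (h : dm x y ≠ 0) : gm x y ≤ dm x y := by
  obtain ⟨i, j, hij⟩ := exists_minor h
  exact (Nat.le_of_dvd (Nat.pos_of_ne_zero hij) (gm_dvd x y i j)).trans (le_dm x y i j)

private theorem dm_le {x y : Fin s → ℤ} {B : ℕ} (hx : ∀ i, |x i| ≤ B) (hy : ∀ i, |y i| ≤ B) :
    dm x y ≤ 2 * B ^ 2 := by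
  unfold dm
  refine Finset.sup_le fun p _ => ?_
  have h1 : |mnr x y p.1 p.2| ≤ 2 * (B : ℤ) ^ 2 := by
    unfold mnr
    have h2 : |x p.1 * y p.2| ≤ (B : ℤ) * B := by
      rw [abs_mul]
      exact mul_le_mul (hx _) (hy _) (abs_nonneg _) (Nat.cast_nonneg _)
    have h3 : |x p.2 * y p.1| ≤ (B : ℤ) * B := by
      rw [abs_mul]
      exact mul_le_mul (hx _) (hy _) (abs_nonneg _) (Nat.cast_nonneg _)
    have h4 := abs_sub (x p.1 * y p.2) (x p.2 * y p.1)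
    nlinarith
  have h2 : ((mnr x y p.1 p.2).natAbs : ℤ) ≤ ((2 * B ^ 2 : ℕ) : ℤ) := by
    rw [Int.natCast_natAbs]
    push_cast
    exact h1
  exact_mod_cast h2

end

section

variable {r : ℕ}

private theorem dm_cv_le (c : ℤ) (x y : Fin r → ℤ) : dm x y ≤ dm (cv c x) (cv c y) := by
  conv_lhs => unfold dm
  refine Finset.sup_le fun p _ => ?_
  exact le_dm (cv c x) (cv c y) p.1.succ p.2.succ

private theorem prop_mod {c : ℤ} {x : Fin r → ℤ} (y : Fin r → ℤ) (hx : Prm (cv c x)) :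
    ∃ k : ℤ, ∀ j, ((gm (cv c x) (cv c y) : ℕ) : ℤ) ∣ y j - k * x j := by
  obtain ⟨a, ha⟩ := hx
  refine ⟨∑ i, a i * cv c y i, fun j => ?_⟩
  have h1 : y j - (∑ i, a i * cv c y i) * x j =
      ∑ i, a i * mnr (cv c x) (cv c y) i j.succ := by
    have h2 : y j = (∑ i, a i * cv c x i) * cv c y j.succ := by rw [ha, one_mul]; rfl
    have h3 : x j = cv c x j.succ := rfl
    rw [h2, h3, Finset.sum_mul, Finset.sum_mul, ← Finset.sum_sub_distrib]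
    refine Finset.sum_congr rfl fun i _ => ?_
    unfold mnr
    ring
  rw [h1]
  refine Finset.dvd_sum fun i _ => Dvd.dvd.mul_left ?_ _
  exact Int.natCast_dvd.2 (gm_dvd _ _ i j.succ)

private theorem cv_bd {c B : ℕ} (hc : c ≤ B) {x : Fin r → ℤ} (hx : ∀ i, |x i| ≤ B) :
    ∀ i, |cv (c : ℤ) x i| ≤ B := by
  intro i
  refine Fin.cases ?_ (fun j => ?_) i
  · have : cv (c : ℤ) x 0 = c := rfl
    rw [this, abs_of_nonneg (Nat.cast_nonneg _)]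
    exact_mod_cast hc
  · exact hx j

private theorem PT_bd {F : Fin 2 → Mon r → ℤ} {c K B : ℕ} {x : Fin r → ℤ}
    (hx : x ∈ PT F c K B) : x ∈ vb r B ∧ (∀ i, |x i| ≤ B) ∧ Prm (cv (c : ℤ) x) ∧
    ∃ i, (B : ℤ) ≤ K * |x i| := by
  classical
  unfold PT at hx
  obtain ⟨h1, h2, h3, _⟩ := mem_filter.1 hx
  refine ⟨h1, ?_, h2, h3⟩
  unfold vb at h1
  rw [Fintype.mem_piFinset] at h1
  intro i
  exact abs_le.2 (mem_Icc.1 (h1 i))

private theorem card_PT {F : Fin 2 → Mon r → ℤ} {c K B : ℕ} (hB : 1 ≤ B) :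
    ((PT F c K B).card : ℝ) ≤ 3 ^ r * (B : ℝ) ^ r := by
  classical
  have h1 : (PT F c K B).card ≤ (2 * B + 1) ^ r := by
    unfold PT
    refine (card_filter_le _ _).trans (le_of_eq ?_)
    unfold vb
    rw [Fintype.card_piFinset_const, Int.card_Icc]
    congr 1
    omega
  have h2 : (2 * B + 1) ^ r ≤ 3 ^ r * B ^ r := by
    rw [← mul_pow]
    exact Nat.pow_le_pow_left (by omega) r
  exact_mod_cast h1.trans h2

/-- the diagonal -/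
private theorem sum_diag (hPKL : T_PKL) (hDIL : T_DIL) (hr : 2 ≤ r) {F : Fin 2 → Mon r → ℤ}
    {c K B A J Q W T : ℕ} [NeZero Q] (hc : 1 ≤ c) (hA : 1 ≤ A) (hBA : B ≤ A) (hcB : c ≤ B)
    (hJ : 2 * B ^ 2 ≤ J) (hQ : Q = 2 * A * J) (hW : 1 ≤ W) (hWQ : W ∣ Q) (hTQ : T ∣ Q)
    (hWT : 2 * W ≤ T) :
    ∑ q ∈ (PT F c K B ×ˢ PT F c K B).filter (fun q => q.1 = q.2),
      4 * pkl Q J W T (cv (c : ℤ) q.1) (cv (c : ℤ) q.2) *
        pl Q J (cv (c : ℤ) q.1) (cv (c : ℤ) q.2) ≤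
      9 * 3 ^ r * ((K : ℝ) ^ 2 * (B : ℝ) ^ (r - 2) / (A : ℝ) ^ 2) := by
  classical
  have hB : 1 ≤ B := hc.trans hcB
  have hB2 : B ≤ B ^ 2 := Nat.le_self_pow (by norm_num) B
  have hJ1 : 1 ≤ J := by omega
  have hAr : (0 : ℝ) < A := by exact_mod_cast hA
  have hBr : (0 : ℝ) < B := by exact_mod_cast hB
  set P := (PT F c K B ×ˢ PT F c K B).filter (fun q => q.1 = q.2) with hP
  have hterm : ∀ q ∈ P, 4 * pkl Q J W T (cv (c : ℤ) q.1) (cv (c : ℤ) q.2) *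
      pl Q J (cv (c : ℤ) q.1) (cv (c : ℤ) q.2) ≤ 9 * (K : ℝ) ^ 2 / ((A : ℝ) ^ 2 * (B : ℝ) ^ 2) := by
    intro q hq
    rw [hP, mem_filter, mem_product] at hq
    obtain ⟨⟨h1, _⟩, h3⟩ := hq
    rw [← h3]
    obtain ⟨_, b1, b2, i, b3⟩ := PT_bd h1
    obtain ⟨k0, k1, _⟩ := hPKL (r + 1) Q J W T (cv (c : ℤ) q.1) (cv (c : ℤ) q.1) hJ1 hW hWQ hTQ hWT
    have k3 := hDIL (r + 1) K B A J Q (cv (c : ℤ) q.1) hB hBA (by omega) hQ b2
      (cv_bd hcB b1) ⟨i.succ, b3⟩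
    have k4 : pl Q J (cv (c : ℤ) q.1) (cv (c : ℤ) q.1) ≤ 3 * K / (2 * A * B) := by
      rw [le_div_iff₀ (by positivity)]
      exact k3
    have k5 := k0.trans k1
    calc 4 * pkl Q J W T (cv (c : ℤ) q.1) (cv (c : ℤ) q.1) * pl Q J (cv (c : ℤ) q.1) (cv (c : ℤ) q.1)
        ≤ 4 * pl Q J (cv (c : ℤ) q.1) (cv (c : ℤ) q.1) * pl Q J (cv (c : ℤ) q.1) (cv (c : ℤ) q.1) := by
          apply mul_le_mul_of_nonneg_right _ k5
          linarith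
      _ ≤ 4 * (3 * K / (2 * A * B)) * (3 * K / (2 * A * B)) := by
          apply mul_le_mul _ k4 k5 (by positivity)
          linarith
      _ = 9 * (K : ℝ) ^ 2 / ((A : ℝ) ^ 2 * (B : ℝ) ^ 2) := by
          field_simp
          ring
  have hcard : P.card ≤ (PT F c K B).card := by
    refine card_le_card_of_injOn Prod.fst ?_ ?_
    · intro q hq
      have hq' : q ∈ P := hq
      rw [hP, mem_filter, mem_product] at hq'
      exact hq'.1.1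
    · intro q hq q' hq' h
      have e1 : q ∈ P := hq
      have e2 : q' ∈ P := hq'
      rw [hP, mem_filter] at e1 e2
      refine Prod.ext h ?_
      rw [← e1.2, ← e2.2]
      exact h
  have hcard2 : (P.card : ℝ) ≤ 3 ^ r * (B : ℝ) ^ r :=
    le_trans (by exact_mod_cast hcard) (card_PT hB)
  have hpow : (B : ℝ) ^ r = (B : ℝ) ^ (r - 2) * (B : ℝ) ^ 2 := by
    rw [← pow_add]
    congr 1
    omega
  calc _ ≤ ∑ _q ∈ P, 9 * (K : ℝ) ^ 2 / ((A : ℝ) ^ 2 * (B : ℝ) ^ 2) := Finset.sum_le_sum hterm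
    _ = P.card * (9 * (K : ℝ) ^ 2 / ((A : ℝ) ^ 2 * (B : ℝ) ^ 2)) := by
        rw [Finset.sum_const, nsmul_eq_mul]
    _ ≤ (3 ^ r * (B : ℝ) ^ r) * (9 * (K : ℝ) ^ 2 / ((A : ℝ) ^ 2 * (B : ℝ) ^ 2)) :=
        mul_le_mul_of_nonneg_right hcard2 (by positivity)
    _ = 9 * 3 ^ r * ((K : ℝ) ^ 2 * (B : ℝ) ^ (r - 2) / (A : ℝ) ^ 2) := by
        rw [hpow]
        field_simp

/-- the parallel pairs -/
private theorem sum_par (hPKL : T_PKL) (hZTR : T_ZTR) {CR : ℝ} {F : Fin 2 → Mon r → ℤ}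
    {c K B A J Q W T : ℕ} [NeZero Q]
    (hPR : ∀ T : Finset ((Fin r → ℤ) × (Fin r → ℤ)), (∀ q ∈ T, q.1 ∈ vb r B ∧ q.2 ∈ vb r B ∧
      dm q.1 q.2 = 0) → (T.card : ℝ) ≤ CR * (B : ℝ) ^ r)
    (hc : 1 ≤ c) (hA : 1 ≤ A) (hcB : c ≤ B)
    (hJ : 2 * B ^ 2 ≤ J) (hQ : Q = 2 * A * J) (hW : 1 ≤ W) (hWQ : W ∣ Q) (hTQ : T ∣ Q)
    (hWT : 2 * W ≤ T) :
    ∑ q ∈ (PT F c K B ×ˢ PT F c K B).filter (fun q => ¬ q.1 = q.2 ∧ dm q.1 q.2 = 0),
      4 * pkl Q J W T (cv (c : ℤ) q.1) (cv (c : ℤ) q.2) *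
        pl Q J (cv (c : ℤ) q.1) (cv (c : ℤ) q.2) ≤
      81 / 4 * CR * ((B : ℝ) ^ r / (A : ℝ) ^ 4) := by
  classical
  have hB : 1 ≤ B := hc.trans hcB
  have hB2 : B ≤ B ^ 2 := Nat.le_self_pow (by norm_num) B
  have hJ1 : 1 ≤ J := by omega
  have hAr : (0 : ℝ) < A := by exact_mod_cast hA
  have hBr : (0 : ℝ) < B := by exact_mod_cast hB
  have hJr : (0 : ℝ) < J := by exact_mod_cast hJ1
  set P := (PT F c K B ×ˢ PT F c K B).filter (fun q => ¬ q.1 = q.2 ∧ dm q.1 q.2 = 0) with hP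
  have hterm : ∀ q ∈ P, 4 * pkl Q J W T (cv (c : ℤ) q.1) (cv (c : ℤ) q.2) *
      pl Q J (cv (c : ℤ) q.1) (cv (c : ℤ) q.2) ≤ 81 / (4 * (A : ℝ) ^ 4) := by
    intro q hq
    rw [hP, mem_filter, mem_product] at hq
    obtain ⟨⟨h1, h2⟩, h3, h4⟩ := hq
    obtain ⟨_, b1, b2, _⟩ := PT_bd h1
    obtain ⟨_, c1, c2, _⟩ := PT_bd h2
    obtain ⟨k0, k1, k2⟩ :=
      hPKL (r + 1) Q J W T (cv (c : ℤ) q.1) (cv (c : ℤ) q.2) hJ1 hW hWQ hTQ hWT
    have k3 := hZTR r c J Q q.1 q.2 hc (by omega) (by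
      intro i
      have h5 := abs_sub (q.1 i) (q.2 i)
      have h6 := b1 i
      have h7 := c1 i
      have h8 : (2 * B : ℤ) ≤ J := by exact_mod_cast (by omega : 2 * B ≤ J)
      linarith) h3
    have k4 : pl Q J (cv (c : ℤ) q.1) (cv (c : ℤ) q.2) ≤ 9 / (4 * (A : ℝ) ^ 2) := by
      refine k2.trans ?_
      have h5 : ((zl Q J (cv (c : ℤ) q.1) (cv (c : ℤ) q.2)).card : ℝ) ≤ 9 * (J : ℝ) ^ 2 := by
        exact_mod_cast k3
      have h6 : (Q : ℝ) = 2 * A * J := by exact_mod_cast hQ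
      rw [h6, div_le_div_iff₀ (by positivity) (by positivity)]
      calc ((zl Q J (cv (c : ℤ) q.1) (cv (c : ℤ) q.2)).card : ℝ) * (4 * (A : ℝ) ^ 2)
          ≤ 9 * (J : ℝ) ^ 2 * (4 * (A : ℝ) ^ 2) :=
            mul_le_mul_of_nonneg_right h5 (by positivity)
        _ = 9 * (2 * A * J) ^ 2 := by ring
    have k5 := k0.trans k1
    calc 4 * pkl Q J W T (cv (c : ℤ) q.1) (cv (c : ℤ) q.2) * pl Q J (cv (c : ℤ) q.1) (cv (c : ℤ) q.2)
        ≤ 4 * pl Q J (cv (c : ℤ) q.1) (cv (c : ℤ) q.2) * pl Q J (cv (c : ℤ) q.1) (cv (c : ℤ) q.2) := by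
          apply mul_le_mul_of_nonneg_right _ k5
          linarith
      _ ≤ 4 * (9 / (4 * (A : ℝ) ^ 2)) * (9 / (4 * (A : ℝ) ^ 2)) := by
          apply mul_le_mul _ k4 k5 (by positivity)
          linarith
      _ = 81 / (4 * (A : ℝ) ^ 4) := by
          field_simp
          norm_num
  have hcard : (P.card : ℝ) ≤ CR * (B : ℝ) ^ r := by
    apply hPR
    intro q hq
    rw [hP, mem_filter, mem_product] at hq
    exact ⟨(PT_bd hq.1.1).1, (PT_bd hq.1.2).1, hq.2.2⟩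
  calc _ ≤ ∑ _q ∈ P, 81 / (4 * (A : ℝ) ^ 4) := Finset.sum_le_sum hterm
    _ = P.card * (81 / (4 * (A : ℝ) ^ 4)) := by
        rw [Finset.sum_const, nsmul_eq_mul]
    _ ≤ (CR * (B : ℝ) ^ r) * (81 / (4 * (A : ℝ) ^ 4)) :=
        mul_le_mul_of_nonneg_right hcard (by positivity)
    _ = 81 / 4 * CR * ((B : ℝ) ^ r / (A : ℝ) ^ 4) := by
        field_simp

/-- the sum over the triples -/
private theorem sum_tw {CW : ℝ} {F : Fin 2 → Mon r → ℤ} {c K B D : ℕ}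
    (hCN : ∑ v ∈ vb r (2 * B), ∑ y ∈ vb r B, ((TW c B D v y).card : ℝ) ≤
      CW * (B : ℝ) ^ 4 * (D : ℝ) ^ (2 * r - 4))
    (P : Finset ((Fin r → ℤ) × (Fin r → ℤ))) (hP : P ⊆ PT F c K B ×ˢ PT F c K B) :
    ∑ q ∈ P, ((TW c B D (fun i => q.1 i - q.2 i) q.2).card : ℝ) ≤
      CW * (B : ℝ) ^ 4 * (D : ℝ) ^ (2 * r - 4) := by
  classical
  refine le_trans ?_ hCN
  rw [← Finset.sum_product' (f := fun v y => ((TW c B D v y).card : ℝ))]
  set Φ : ((Fin r → ℤ) × (Fin r → ℤ)) → ((Fin r → ℤ) × (Fin r → ℤ)) :=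
    fun q => (fun i => q.1 i - q.2 i, q.2) with hΦ
  have hinj : Function.Injective Φ := by
    intro q q' h
    rw [hΦ] at h
    simp only [Prod.mk.injEq] at h
    obtain ⟨h1, h2⟩ := h
    refine Prod.ext ?_ h2
    funext i
    have h3 := congrFun h1 i
    simp only [h2] at h3
    linarith
  have h1 : ∑ q ∈ P, ((TW c B D (fun i => q.1 i - q.2 i) q.2).card : ℝ) =
      ∑ q ∈ P.image Φ, ((TW c B D q.1 q.2).card : ℝ) := by
    rw [Finset.sum_image fun a _ b _ h => hinj h]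
  rw [h1]
  refine Finset.sum_le_sum_of_subset_of_nonneg ?_ fun q _ _ => Nat.cast_nonneg _
  intro q hq
  rw [mem_image] at hq
  obtain ⟨q', hq', rfl⟩ := hq
  have h2 := mem_product.1 (hP hq')
  obtain ⟨b0, b1, _⟩ := PT_bd h2.1
  obtain ⟨c0, c1, _⟩ := PT_bd h2.2
  rw [mem_product, hΦ]
  refine ⟨?_, c0⟩
  unfold vb
  rw [Fintype.mem_piFinset]
  intro i
  refine mem_Icc.2 (abs_le.1 ?_)
  have h3 := abs_sub (q'.1 i) (q'.2 i)
  have h4 := b1 i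
  have h5 := c1 i
  push_cast
  linarith

end

theorem pf_SEL (hPBL : T_PBL) (hCNW : T_CNW) (hDIL : T_DIL) (hSML : T_SML) (hPR2 : T_PR2)
    (hZTR : T_ZTR) (hPKL : T_PKL) (hPAV : T_PAV) : T_SEL := by
  classical
  intro r c hr hc
  obtain ⟨CP, hCP, hP⟩ := hPBL r c
  obtain ⟨CW, hCW, hW'⟩ := hCNW r c (by omega)
  obtain ⟨CS, hCS, hS⟩ := hSML r hr
  obtain ⟨CR, hCR, hR⟩ := hPR2 r (by omega)
  obtain ⟨CA, hCA, hA'⟩ := hPAV r (by omega)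
  set C1 : ℝ := 4 * CP * CS * CA * 2 ^ (r - 3) with hC1
  have hC10 : 0 < C1 := by positivity
  refine ⟨C1 + 4 * CP * CW + 81 / 4 * CR + 9 * 3 ^ r, by positivity, ?_⟩
  intro F K B A J Q W T w D _ hA hBA hcB hJ hQ hW hWQ hTQ hWT hw hgw hD hDA
  have hB : 1 ≤ B := hc.trans hcB
  have hAr : (0 : ℝ) < A := by exact_mod_cast hA
  have hBr : (0 : ℝ) < B := by exact_mod_cast hB
  have hwr : (0 : ℝ) < w := by exact_mod_cast hw
  have hdiag := sum_diag (F := F) (K := K) hPKL hDIL (by omega) hc hA hBA hcB hJ hQ hW hWQ hTQ hWT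
  have hpar := sum_par (F := F) (K := K) (CR := CR) hPKL hZTR (by
    intro T' hT'
    refine le_trans ?_ (hR B hB)
    have : T'.card ≤ ((vb r B ×ˢ vb r B).filter fun q => dm q.1 q.2 = 0).card := by
      apply card_le_card
      intro q hq
      obtain ⟨a1, a2, a3⟩ := hT' q hq
      rw [mem_filter, mem_product]
      exact ⟨⟨a1, a2⟩, a3⟩
    exact_mod_cast this) hc hA hcB hJ hQ hW hWQ hTQ hWT
  rw [← Finset.sum_product' (f := fun x y => 4 * pkl Q J W T (cv (c : ℤ) x) (cv (c : ℤ) y) *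
    pl Q J (cv (c : ℤ) x) (cv (c : ℤ) y))]
  rw [← Finset.sum_filter_add_sum_filter_not (PT F c K B ×ˢ PT F c K B) (fun q => q.1 = q.2)]
  rw [← Finset.sum_filter_add_sum_filter_not ((PT F c K B ×ˢ PT F c K B).filter
    (fun q => ¬ q.1 = q.2)) (fun q => dm q.1 q.2 = 0)]
  rw [Finset.filter_filter, Finset.filter_filter]
  set P := (PT F c K B ×ˢ PT F c K B).filter (fun q => ¬ q.1 = q.2 ∧ ¬ dm q.1 q.2 = 0) with hPdef
  set κ : ℝ := (B : ℝ) * T / A with hκ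
  have hκ0 : 0 ≤ κ := by positivity
  have hPm : ∀ q ∈ P, q.1 ∈ PT F c K B ∧ q.2 ∈ PT F c K B ∧ q.1 ≠ q.2 ∧ dm q.1 q.2 ≠ 0 := by
    intro q hq
    rw [hPdef, mem_filter, mem_product] at hq
    exact ⟨hq.1.1, hq.1.2, hq.2.1, hq.2.2⟩
  have hPm2 : ∀ q ∈ P, dm (cv (c : ℤ) q.1) (cv (c : ℤ) q.2) ≠ 0 := by
    intro q hq h0
    have h1 := dm_cv_le (c : ℤ) q.1 q.2
    rw [h0] at h1
    exact (hPm q hq).2.2.2 (Nat.le_zero.1 h1)
  have hterm : ∀ q ∈ P, 4 * pkl Q J W T (cv (c : ℤ) q.1) (cv (c : ℤ) q.2) *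
      pl Q J (cv (c : ℤ) q.1) (cv (c : ℤ) q.2) ≤
      4 * CP / (A : ℝ) ^ 4 * ((gm (cv (c : ℤ) q.1) (cv (c : ℤ) q.2) : ℝ) ^ 2 /
        (dm (cv (c : ℤ) q.1) (cv (c : ℤ) q.2) : ℝ) ^ 2 *
        (if gm (cv (c : ℤ) q.1) (cv (c : ℤ) q.2) ∣ W then
          κ / dm (cv (c : ℤ) q.1) (cv (c : ℤ) q.2) else 1)) +
      4 * CP / (A : ℝ) ^ 5 * ((TW c B D (fun i => q.1 i - q.2 i) q.2).card : ℝ) := by
    intro q hq
    obtain ⟨g1, g2, g3, g4⟩ := hPm q hq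
    obtain ⟨_, b1, b2, _⟩ := PT_bd g1
    obtain ⟨_, c1, c2, _⟩ := PT_bd g2
    have h1 := hP B A J Q W T D q.1 q.2 hc hA hBA hcB hJ hQ hW hWQ hTQ hWT hDA b2 g3 b1 c1
    have hd : (0 : ℝ) < dm (cv (c : ℤ) q.1) (cv (c : ℤ) q.2) := by
      exact_mod_cast Nat.pos_of_ne_zero (hPm2 q hq)
    generalize (dm (cv (c : ℤ) q.1) (cv (c : ℤ) q.2) : ℝ) = d at h1 hd ⊢
    generalize hg : (gm (cv (c : ℤ) q.1) (cv (c : ℤ) q.2) : ℝ) = g at h1 ⊢
    calc 4 * pkl Q J W T (cv (c : ℤ) q.1) (cv (c : ℤ) q.2) *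
          pl Q J (cv (c : ℤ) q.1) (cv (c : ℤ) q.2)
        = 4 * (pkl Q J W T (cv (c : ℤ) q.1) (cv (c : ℤ) q.2) *
          pl Q J (cv (c : ℤ) q.1) (cv (c : ℤ) q.2)) := by ring
      _ ≤ 4 * (CP * ((g / ((A : ℝ) ^ 2 * d)) ^ 2 *
          (if gm (cv (c : ℤ) q.1) (cv (c : ℤ) q.2) ∣ W then (B : ℝ) * T / (A * d) else 1) +
          ((TW c B D (fun i => q.1 i - q.2 i) q.2).card : ℝ) / (A : ℝ) ^ 5)) := by
          apply mul_le_mul_of_nonneg_left h1 (by norm_num)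
      _ = _ := by
          rw [hκ]
          split_ifs
          · field_simp
          · field_simp
  have hM : ∀ q ∈ P, 1 ≤ gm (cv (c : ℤ) q.1) (cv (c : ℤ) q.2) ∧
      gm (cv (c : ℤ) q.1) (cv (c : ℤ) q.2) ≤ dm (cv (c : ℤ) q.1) (cv (c : ℤ) q.2) ∧
      dm (cv (c : ℤ) q.1) (cv (c : ℤ) q.2) ≤ 2 * B ^ 2 := by
    intro q hq
    obtain ⟨g1, g2, g3, g4⟩ := hPm q hq
    exact ⟨gm_pos (hPm2 q hq), gm_le_dm (hPm2 q hq),
      dm_le (cv_bd hcB (PT_bd g1).2.1) (cv_bd hcB (PT_bd g2).2.1)⟩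
  have hcount : ∀ g D' : ℕ, 1 ≤ g →
      ((P.filter fun q => gm (cv (c : ℤ) q.1) (cv (c : ℤ) q.2) = g ∧
        dm (cv (c : ℤ) q.1) (cv (c : ℤ) q.2) ≤ D').card : ℝ) ≤
      CA * (B : ℝ) ^ 2 * ((D' : ℝ) / g) ^ (r - 1) := by
    intro g D' hg
    refine le_trans ?_ (hA' B D' g hg)
    have : (P.filter fun q => gm (cv (c : ℤ) q.1) (cv (c : ℤ) q.2) = g ∧
        dm (cv (c : ℤ) q.1) (cv (c : ℤ) q.2) ≤ D').card ≤
        ((vb r B ×ˢ vb r B).filter fun q => dm q.1 q.2 ≠ 0 ∧ dm q.1 q.2 ≤ D' ∧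
          ∃ k : ℤ, ∀ j, (g : ℤ) ∣ q.2 j - k * q.1 j).card := by
      apply card_le_card
      intro q hq
      rw [mem_filter] at hq
      obtain ⟨hq1, hq2, hq3⟩ := hq
      obtain ⟨g1, g2, g3, g4⟩ := hPm q hq1
      obtain ⟨b0, _, b2, _⟩ := PT_bd g1
      rw [mem_filter, mem_product]
      refine ⟨⟨b0, (PT_bd g2).1⟩, g4, (dm_cv_le (c : ℤ) q.1 q.2).trans hq3, ?_⟩
      have := prop_mod (c := (c : ℤ)) q.2 b2
      rw [hq2] at this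
      exact this
    exact_mod_cast this
  have hsum := hS _ P (fun q => gm (cv (c : ℤ) q.1) (cv (c : ℤ) q.2))
    (fun q => dm (cv (c : ℤ) q.1) (cv (c : ℤ) q.2)) (2 * B ^ 2) W w
    (CA * (B : ℝ) ^ 2) κ (by positivity) hκ0 hw hgw hM hcount
  have htw := sum_tw (F := F) (K := K) (hW' B D hB hD) P (filter_subset _ _)
  set M1 : ℝ := ((B : ℝ) ^ (r - 2) / (A : ℝ) ^ 2) ^ 2 * (1 / w + T / (A * B)) with hM1
  have hM10 : 0 ≤ M1 := by positivity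
  set M2 : ℝ := (B : ℝ) ^ 4 * (D : ℝ) ^ (2 * r - 4) / (A : ℝ) ^ 5 with hM2
  have hM20 : 0 ≤ M2 := by positivity
  set M3 : ℝ := (B : ℝ) ^ r / (A : ℝ) ^ 4 with hM3
  have hM30 : 0 ≤ M3 := by positivity
  set M4 : ℝ := (K : ℝ) ^ 2 * (B : ℝ) ^ (r - 2) / (A : ℝ) ^ 2 with hM4
  have hM40 : 0 ≤ M4 := by positivity
  have hfirst : 4 * CP / (A : ℝ) ^ 4 * (CS * (CA * (B : ℝ) ^ 2) *
      (((2 * B ^ 2 : ℕ) : ℝ) ^ (r - 3) / w + κ * ((2 * B ^ 2 : ℕ) : ℝ) ^ (r - 4))) ≤ C1 * M1 := by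
    have e1 : ((2 * B ^ 2 : ℕ) : ℝ) = 2 * (B : ℝ) ^ 2 := by push_cast; ring
    have e2 : r - 3 = (r - 4) + 1 := by omega
    have e3 : (B : ℝ) ^ (r - 2) = (B : ℝ) ^ (r - 4) * (B : ℝ) ^ 2 := by
      rw [← pow_add]
      congr 1
      omega
    have h1 : κ * (2 * (B : ℝ) ^ 2) ^ (r - 4) ≤ κ * (2 * (2 * (B : ℝ) ^ 2) ^ (r - 4)) := by
      apply mul_le_mul_of_nonneg_left _ hκ0
      have : (0 : ℝ) ≤ (2 * (B : ℝ) ^ 2) ^ (r - 4) := by positivity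
      linarith
    rw [e1]
    calc 4 * CP / (A : ℝ) ^ 4 * (CS * (CA * (B : ℝ) ^ 2) *
          ((2 * (B : ℝ) ^ 2) ^ (r - 3) / w + κ * (2 * (B : ℝ) ^ 2) ^ (r - 4)))
        ≤ 4 * CP / (A : ℝ) ^ 4 * (CS * (CA * (B : ℝ) ^ 2) *
          ((2 * (B : ℝ) ^ 2) ^ (r - 3) / w + κ * (2 * (2 * (B : ℝ) ^ 2) ^ (r - 4)))) := by
          apply mul_le_mul_of_nonneg_left _ (by positivity)
          apply mul_le_mul_of_nonneg_left _ (by positivity)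
          linarith
      _ = C1 * M1 := by
          have e4 : ((B : ℝ) ^ 2) ^ (r - 4) = ((B : ℝ) ^ (r - 4)) ^ 2 := by
            rw [← pow_mul, ← pow_mul, mul_comm]
          have e5 : (2 * (B : ℝ) ^ 2) ^ (r - 3) =
              2 ^ (r - 4) * 2 * (((B : ℝ) ^ (r - 4)) ^ 2 * (B : ℝ) ^ 2) := by
            rw [e2, pow_succ, mul_pow, e4]
            ring
          have e6 : (2 : ℝ) ^ (r - 3) = 2 ^ (r - 4) * 2 := by
            rw [e2, pow_succ]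
          rw [hC1, hM1, hκ, e3, e5, e6, mul_pow 2 ((B : ℝ) ^ 2), e4]
          generalize (2 : ℝ) ^ (r - 4) = u
          generalize (B : ℝ) ^ (r - 4) = v
          field_simp
  have hind : ∑ q ∈ P, 4 * pkl Q J W T (cv (c : ℤ) q.1) (cv (c : ℤ) q.2) *
      pl Q J (cv (c : ℤ) q.1) (cv (c : ℤ) q.2) ≤ C1 * M1 + 4 * CP * CW * M2 := by
    refine (Finset.sum_le_sum hterm).trans ?_
    rw [Finset.sum_add_distrib, ← Finset.mul_sum, ← Finset.mul_sum]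
    apply add_le_add
    · refine le_trans ?_ hfirst
      apply mul_le_mul_of_nonneg_left hsum (by positivity)
    · calc 4 * CP / (A : ℝ) ^ 5 * ∑ q ∈ P, ((TW c B D (fun i => q.1 i - q.2 i) q.2).card : ℝ)
          ≤ 4 * CP / (A : ℝ) ^ 5 * (CW * (B : ℝ) ^ 4 * (D : ℝ) ^ (2 * r - 4)) :=
            mul_le_mul_of_nonneg_left htw (by positivity)
        _ = 4 * CP * CW * M2 := by
            rw [hM2]
            field_simp
  calc _ ≤ 9 * 3 ^ r * M4 + (81 / 4 * CR * M3 + (C1 * M1 + 4 * CP * CW * M2)) :=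
        add_le_add hdiag (add_le_add hpar hind)
    _ ≤ (C1 + 4 * CP * CW + 81 / 4 * CR + 9 * 3 ^ r) * (M1 + M2 + M3 + M4) := by
        have q1 : 0 ≤ C1 * (M2 + M3 + M4) := by positivity
        have q2 : 0 ≤ 4 * CP * CW * (M1 + M3 + M4) := by positivity
        have q3 : 0 ≤ 81 / 4 * CR * (M1 + M2 + M4) := by positivity
        have q4 : 0 ≤ 9 * (3 : ℝ) ^ r * (M1 + M2 + M3) := by positivity
        nlinarith

end Pool.Agent.H7.HFS
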